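import Pool.Agent.Work.MP_ce2d68_du.Interface

set_option autoImplicit false

open Polynomial Filter Topology
open scoped ComplexConjugate

namespace Pool.Agent.Work.MP_ce2d68_du.h89

open Pool.Agent.Work.MP_ce2d68_st Pool.Agent.Work.MP_ce2d68_du

/-- a disc in the sector -/
theorem disc (θ : ℝ) (h0 : 0 < θ) : ∃ s : ℝ, 0 < s ∧ s ≤ 1 / 2 ∧
    ∀ (c : ℝ) (w : ℂ), 0 < c → ‖w - (c : ℂ)‖ ≤ s * c →
      |w.arg| ≤ θ ∧ c / 2 ≤ ‖w‖ ∧ ‖w‖ ≤ 3 * c / 2 := by
  set θ' := min θ (Real.pi / 2) with hθ'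
  have hp := Real.pi_pos
  have h1 : 0 < θ' := lt_min h0 (by linarith)
  have h2 : θ' ≤ Real.pi / 2 := min_le_right _ _
  have h3 : 0 < Real.sin θ' := Real.sin_pos_of_pos_of_lt_pi h1 (by linarith)
  have h4 := Real.sin_le_one θ'
  refine ⟨Real.sin θ' / 2, by linarith, by linarith, ?_⟩
  intro c w hc hw
  have hsc : Real.sin θ' / 2 * c ≤ c / 2 := by nlinarith
  have e1 : |(w - (c : ℂ)).re| ≤ ‖w - (c : ℂ)‖ := Complex.abs_re_le_norm _
  have e2 : |(w - (c : ℂ)).im| ≤ ‖w - (c : ℂ)‖ := Complex.abs_im_le_norm _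
  have e3 : (w - (c : ℂ)).re = w.re - c := by simp
  have e4 : (w - (c : ℂ)).im = w.im := by simp
  rw [e3] at e1
  rw [e4] at e2
  have hre : c / 2 ≤ w.re := by
    have := (abs_le.1 (e1.trans hw)).1
    linarith
  have hcn : ‖(c : ℂ)‖ = c := by
    rw [Complex.norm_real, Real.norm_eq_abs, abs_of_pos hc]
  have hn1 : c / 2 ≤ ‖w‖ := hre.trans (Complex.re_le_norm w)
  have hn2 : ‖w‖ ≤ 3 * c / 2 := by
    have h5 : ‖w‖ ≤ ‖w - (c : ℂ)‖ + ‖(c : ℂ)‖ := by
      calc ‖w‖ = ‖(w - (c : ℂ)) + (c : ℂ)‖ := by rw [sub_add_cancel]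
        _ ≤ _ := norm_add_le _ _
    rw [hcn] at h5
    linarith
  refine ⟨?_, hn1, hn2⟩
  have hw0 : 0 < ‖w‖ := by linarith
  have ha : |w.arg| ≤ Real.pi / 2 := Complex.abs_arg_le_pi_div_two_iff.2 (by linarith)
  have hs1 : Real.sin |w.arg| ≤ Real.sin θ' := by
    have h6 : |Real.sin w.arg| = Real.sin |w.arg| := by
      rcases le_total 0 w.arg with h | h
      · rw [abs_of_nonneg h, abs_of_nonneg]
        exact Real.sin_nonneg_of_nonneg_of_le_pi h (Complex.arg_le_pi w)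
      · rw [abs_of_nonpos h, Real.sin_neg, abs_of_nonpos]
        apply Real.sin_nonpos_of_nonpos_of_neg_pi_le h
        exact (Complex.neg_pi_lt_arg w).le
    rw [← h6, Complex.sin_arg, abs_div, abs_of_pos hw0, div_le_iff₀ hw0]
    calc |w.im| ≤ Real.sin θ' / 2 * c := e2.trans hw
      _ = Real.sin θ' * (c / 2) := by ring
      _ ≤ Real.sin θ' * ‖w‖ := mul_le_mul_of_nonneg_left hn1 h3.le
  have h7 : |w.arg| ≤ θ' := by
    by_contra h
    have := Real.strictMonoOn_sin (a := θ') (b := |w.arg|) ⟨by linarith, h2⟩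
      ⟨by have := abs_nonneg w.arg; linarith, ha⟩ (not_le.1 h)
    linarith
  exact h7.trans (min_le_left _ _)

theorem exp_posLog {r : ℝ} (hr : 0 ≤ r) : Real.exp (Real.posLog r) = max 1 r := by
  rw [Real.posLog_eq_log_max_one hr, Real.exp_log]
  exact lt_of_lt_of_le one_pos (le_max_left _ _)

theorem posLog_near {a z : ℂ} {τ : ℝ} (hτ : 0 < τ) (h : ‖z - a‖ ≤ τ) :
    Real.posLog ‖a‖ ≤ Real.posLog ‖z‖ + τ := by
  rw [← Real.exp_le_exp, Real.exp_add, exp_posLog (norm_nonneg _), exp_posLog (norm_nonneg _)]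
  have h1 : ‖a‖ ≤ ‖z‖ + τ := by
    have h2 : ‖a‖ ≤ ‖z - a‖ + ‖z‖ := by
      calc ‖a‖ = ‖z - (z - a)‖ := by rw [sub_sub_cancel]
        _ ≤ ‖z‖ + ‖z - a‖ := norm_sub_le _ _
        _ = _ := add_comm _ _
    linarith
  have h3 : 1 + τ ≤ Real.exp τ := by linarith [Real.add_one_le_exp τ]
  have h4 : (1 : ℝ) ≤ max 1 ‖z‖ := le_max_left _ _
  have h5 : ‖z‖ ≤ max 1 ‖z‖ := le_max_right _ _
  have h6 : max 1 ‖z‖ * (1 + τ) ≤ max 1 ‖z‖ * Real.exp τ :=
    mul_le_mul_of_nonneg_left h3 (by linarith)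
  apply max_le
  · nlinarith
  · nlinarith

/-- the value of one factor near a grid point -/
theorem ev_near (hB : Stmt_NBAS) {P : ℤ[X]} (hP : IP P) {a z : ℂ} {t τ : ℝ} (ht : 0 < t)
    (hτ : 0 < τ) (h : ‖z - a‖ ≤ τ) :
    ‖ev P z‖ ≤ Real.exp (Lt t P a + P.natDegree * (τ / t)) := by
  obtain ⟨h1, h2, -, -, -, -⟩ := hB P hP
  have hP0 : P ≠ 0 := hP.1.ne_zero
  have hlc : (P.leadingCoeff : ℤ) ≠ 0 := leadingCoeff_ne_zero.2 hP0
  have hlc' : 0 < |((P.leadingCoeff : ℤ) : ℝ)| := abs_pos.2 (by exact_mod_cast hlc)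
  have e1 : ‖ev P z‖ = |((P.leadingCoeff : ℤ) : ℝ)| * ∏ x ∈ rts P, ‖z - x‖ := by
    unfold ev
    rw [h1, eval_mul, eval_C, eval_prod, norm_mul, norm_prod]
    congr 1
    · rw [Complex.norm_intCast]
    · apply Finset.prod_congr rfl
      intro x _
      simp
  have e2 : ∏ x ∈ rts P, ‖z - x‖ ≤ ∏ x ∈ rts P, (max ‖x - a‖ t * Real.exp (τ / t)) := by
    apply Finset.prod_le_prod
    · intro x _
      exact norm_nonneg _
    · intro x _
      have h3 : ‖z - x‖ ≤ τ + max ‖x - a‖ t := by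
        calc ‖z - x‖ = ‖(z - a) - (x - a)‖ := by congr 1; ring
          _ ≤ ‖z - a‖ + ‖x - a‖ := norm_sub_le _ _
          _ ≤ _ := add_le_add h (le_max_left _ _)
      have h4 : t ≤ max ‖x - a‖ t := le_max_right _ _
      have h5 : τ ≤ max ‖x - a‖ t * (τ / t) := by
        calc τ = t * (τ / t) := by field_simp
          _ ≤ _ := mul_le_mul_of_nonneg_right h4 (by positivity)
      have h6 : 1 + τ / t ≤ Real.exp (τ / t) := by linarith [Real.add_one_le_exp (τ / t)]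
      have h7 : 0 ≤ max ‖x - a‖ t := ht.le.trans h4
      calc ‖z - x‖ ≤ max ‖x - a‖ t * (1 + τ / t) := by linarith
        _ ≤ _ := mul_le_mul_of_nonneg_left h6 h7
  have e3 : Real.exp (Lt t P a + P.natDegree * (τ / t))
      = |((P.leadingCoeff : ℤ) : ℝ)| * ∏ x ∈ rts P, (max ‖x - a‖ t * Real.exp (τ / t)) := by
    unfold Lt llc
    rw [Real.exp_add, Real.exp_add, Real.exp_log hlc', Real.exp_sum, Finset.prod_mul_distrib,
      Finset.prod_const, h2, mul_assoc]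
    congr 1
    congr 1
    · apply Finset.prod_congr rfl
      intro x _
      rw [Real.exp_log (lt_of_lt_of_le ht (le_max_right _ _))]
    · rw [← Real.exp_nat_mul]
  rw [e1, e3]
  exact mul_le_mul_of_nonneg_left e2 hlc'.le

theorem ev_prod (F : Finset ℤ[X]) (k : ℤ[X] → ℕ) (z : ℂ) :
    ev (∏ P ∈ F, P ^ k P) z = ∏ P ∈ F, ev P z ^ k P := by
  unfold ev cp
  rw [Polynomial.map_prod, eval_prod]
  apply Finset.prod_congr rfl
  intro P _
  rw [Polynomial.map_pow, eval_pow]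

/-- `CERT` -/
theorem p_CERT (hB : Stmt_NBAS) (hW : Stmt_BW) : Stmt_CERT := by
  intro θ η h0 hpi hη hη2
  obtain ⟨s, hs0, hs1, hdisc⟩ := disc θ h0
  set ℓi : ℝ := Real.log (3 / (2 * s)) with hℓi
  set ℓo : ℝ := Real.log (3 / s) with hℓo
  have h2s : 3 ≤ 3 / (2 * s) := by
    rw [le_div_iff₀ (by positivity)]; nlinarith
  have hs3 : 6 ≤ 3 / s := by
    rw [le_div_iff₀ hs0]; nlinarith
  have hi3 : Real.log 3 ≤ ℓi := Real.log_le_log (by norm_num) h2s
  have hlog3 : 0 < Real.log 3 := Real.log_pos (by norm_num)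
  have hio : 0 < ℓo := Real.log_pos (by linarith)
  set r₁ : ℝ := Real.exp (-(ℓi / η)) with hr₁
  set R₁ : ℝ := Real.exp (ℓo / (2 * η)) with hR₁
  have hr0 : 0 < r₁ := Real.exp_pos _
  have hr9 : r₁ ≤ 1 / 9 := by
    have h1 : 2 * Real.log 3 ≤ ℓi / η := by
      rw [le_div_iff₀ hη]; nlinarith
    have h2 : r₁ ≤ Real.exp (-(2 * Real.log 3)) := Real.exp_le_exp.2 (by linarith)
    have h3 : Real.exp (-(2 * Real.log 3)) = 1 / 9 := by
      rw [Real.exp_neg, two_mul, Real.exp_add, Real.exp_log (by norm_num)]; norm_num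
    linarith
  have hR1 : 1 < R₁ := by
    rw [hR₁, ← Real.exp_zero]
    exact Real.exp_lt_exp.2 (by positivity)
  refine ⟨r₁, R₁, hr0, by linarith, hR1, ?_⟩
  intro t τ G F x m m₁ ht hτ hnet hF hx hxd hc hm0 hm
  -- the constant
  set L : ℂ → ℤ[X] → ℝ := fun a P => Lt t P a + P.natDegree * (τ / t) with hL
  set C₀ : ℝ := ∑ a ∈ G, ∑ P ∈ F, |L a P| with hC₀
  have hC0 : 0 ≤ C₀ := Finset.sum_nonneg fun a _ => Finset.sum_nonneg fun P _ => abs_nonneg _
  obtain ⟨M, hM⟩ := exists_nat_ge (1 / η + C₀ / (m - τ / t - τ - m₁) + 1)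
  have hδ : 0 < m - τ / t - τ - m₁ := by linarith
  have hq1 : 0 ≤ C₀ / (m - τ / t - τ - m₁) := div_nonneg hC0 hδ.le
  have hq2 : 0 < 1 / η := by positivity
  have hM1 : 1 ≤ (M : ℝ) := by linarith
  have hMη : 1 ≤ (M : ℝ) * η := by
    have : 1 / η ≤ M := by linarith
    rwa [div_le_iff₀ hη] at this
  have hMC : C₀ ≤ M * (m - τ / t - τ - m₁) := by
    have : C₀ / (m - τ / t - τ - m₁) ≤ M := by linarith
    rwa [div_le_iff₀ hδ] at this
  set k : ℤ[X] → ℕ := fun P => ⌊(M : ℝ) * x P⌋₊ with hk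
  have hk1 : ∀ P, (k P : ℝ) ≤ M * x P := fun P =>
    Nat.floor_le (mul_nonneg (by linarith) (hx P))
  have hk2 : ∀ P, (M : ℝ) * x P - 1 ≤ k P := fun P => by
    have := Nat.lt_floor_add_one ((M : ℝ) * x P)
    simp only [hk]
    linarith
  set Q₀ : ℤ[X] := ∏ P ∈ F, P ^ k P with hQ₀
  have hQ0 : Q₀ ≠ 0 := Finset.prod_ne_zero_iff.2 fun P hP => pow_ne_zero _ (hF P hP).1.ne_zero
  have hdeg : (cp Q₀).natDegree ≤ M := by
    have h1 : Q₀.natDegree ≤ ∑ P ∈ F, k P * P.natDegree := by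
      refine (natDegree_prod_le F (fun P => P ^ k P)).trans ?_
      exact Finset.sum_le_sum fun P _ => natDegree_pow_le
    have h2 : ((∑ P ∈ F, k P * P.natDegree : ℕ) : ℝ) ≤ M := by
      push_cast
      calc ∑ P ∈ F, (k P : ℝ) * P.natDegree ≤ ∑ P ∈ F, M * (x P * P.natDegree) := by
            apply Finset.sum_le_sum
            intro P _
            rw [← mul_assoc]
            exact mul_le_mul_of_nonneg_right (hk1 P) (Nat.cast_nonneg _)
        _ = M * ∑ P ∈ F, x P * P.natDegree := by rw [Finset.mul_sum]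
        _ ≤ M * 1 := mul_le_mul_of_nonneg_left hxd (by linarith)
        _ = M := mul_one _
    have h3 : ∑ P ∈ F, k P * P.natDegree ≤ M := by exact_mod_cast h2
    exact (natDegree_map_le).trans (h1.trans h3)
  -- the bound in the annulus
  have hann : ∀ z : ℂ, |z.arg| ≤ θ → r₁ ≤ ‖z‖ → ‖z‖ ≤ R₁ →
      ‖ev Q₀ z‖ ≤ Real.exp (M * ((1 - 2 * η) * Real.posLog ‖z‖ - m₁)) := by
    intro z hz1 hz2 hz3
    obtain ⟨a, haG, ha⟩ := hnet z hz1 hz2 hz3
    have h1 : ‖ev Q₀ z‖ ≤ ∏ P ∈ F, Real.exp (L a P) ^ k P := by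
      rw [hQ₀, ev_prod, norm_prod]
      apply Finset.prod_le_prod
      · intro P _; exact norm_nonneg _
      · intro P hP
        rw [norm_pow]
        exact pow_le_pow_left₀ (norm_nonneg _) (ev_near hB (hF P hP) ht hτ ha) _
    have h2 : ∏ P ∈ F, Real.exp (L a P) ^ k P = Real.exp (∑ P ∈ F, k P * L a P) := by
      rw [Real.exp_sum]
      apply Finset.prod_congr rfl
      intro P _
      rw [← Real.exp_nat_mul]
    have h3 : ∑ P ∈ F, k P * L a P ≤ ∑ P ∈ F, (M * (x P * L a P) + |L a P|) := by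
      apply Finset.sum_le_sum
      intro P _
      have h4 := hk1 P
      have h5 := hk2 P
      rcases le_total 0 (L a P) with h | h
      · rw [abs_of_nonneg h]
        nlinarith
      · rw [abs_of_nonpos h]
        nlinarith
    have h4 : ∑ P ∈ F, |L a P| ≤ C₀ :=
      Finset.single_le_sum (f := fun a => ∑ P ∈ F, |L a P|)
        (fun b _ => Finset.sum_nonneg fun P _ => abs_nonneg _) haG
    have h5 : ∑ P ∈ F, x P * L a P ≤ (1 - 2 * η) * Real.posLog ‖a‖ - m + τ / t := by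
      have h6 : ∑ P ∈ F, x P * L a P
          = ∑ P ∈ F, x P * Lt t P a + (∑ P ∈ F, x P * P.natDegree) * (τ / t) := by
        rw [Finset.sum_mul, ← Finset.sum_add_distrib]
        apply Finset.sum_congr rfl
        intro P _
        simp only [hL]
        ring
      have h7 : (∑ P ∈ F, x P * P.natDegree) * (τ / t) ≤ 1 * (τ / t) :=
        mul_le_mul_of_nonneg_right hxd (by positivity)
      rw [h6]
      linarith [hc a haG]
    have h8 : (1 - 2 * η) * Real.posLog ‖a‖ ≤ (1 - 2 * η) * Real.posLog ‖z‖ + τ := by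
      have := posLog_near hτ ha
      nlinarith
    rw [h2] at h1
    refine h1.trans (Real.exp_le_exp.2 ?_)
    rw [Finset.sum_add_distrib, ← Finset.mul_sum] at h3
    have h9 : (M : ℝ) * ∑ P ∈ F, x P * L a P
        ≤ M * ((1 - 2 * η) * Real.posLog ‖z‖ + τ - m + τ / t) :=
      mul_le_mul_of_nonneg_left (by linarith) (by linarith)
    calc ∑ P ∈ F, (k P : ℝ) * L a P
        ≤ M * ((1 - 2 * η) * Real.posLog ‖z‖ + τ - m + τ / t) + C₀ := by linarith
      _ ≤ M * ((1 - 2 * η) * Real.posLog ‖z‖ + τ - m + τ / t)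
          + M * (m - τ / t - τ - m₁) := by linarith
      _ = _ := by ring
  set j : ℕ := ⌈(M : ℝ) * η⌉₊ with hj
  have hj1 : (M : ℝ) * η ≤ j := Nat.le_ceil _
  have hj2 : (j : ℝ) ≤ 2 * (M * η) := by
    have := Nat.ceil_lt_add_one (a := (M : ℝ) * η) (by linarith)
    simp only [hj]
    linarith
  -- the three cases
  have hmain : ∀ z : ℂ, |z.arg| ≤ θ →
      ‖z‖ ^ j * ‖ev Q₀ z‖ ≤ Real.exp (-(M * m₁)) * (max 1 ‖z‖) ^ (M + j) := by
    intro z hz
    have hz1 : (1 : ℝ) ≤ max 1 ‖z‖ := le_max_left _ _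
    have hzn : ‖z‖ ≤ max 1 ‖z‖ := le_max_right _ _
    rcases lt_or_ge ‖z‖ r₁ with hc1 | hc1
    · -- inner part
      have b1 : ∀ w : ℂ, ‖w - ((2 * r₁ : ℝ) : ℂ)‖ ≤ s * (2 * r₁) →
          ‖(cp Q₀).eval w‖ ≤ Real.exp (-(M * m₁)) := by
        intro w hw
        obtain ⟨d1, d2, d3⟩ := hdisc (2 * r₁) w (by linarith) hw
        have d4 := hann w d1 (by linarith) (by linarith)
        have d5 : Real.posLog ‖w‖ = 0 := by
          rw [Real.posLog_eq_zero_iff, abs_norm]; linarith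
        rw [d5] at d4
        refine d4.trans (Real.exp_le_exp.2 ?_)
        linarith
      have b2 := hW (cp Q₀) M ((2 * r₁ : ℝ) : ℂ) (s * (2 * r₁)) (Real.exp (-(M * m₁))) hdeg
        (by positivity) b1 z
      have hcn : ‖((2 * r₁ : ℝ) : ℂ)‖ = 2 * r₁ := by
        rw [Complex.norm_real, Real.norm_eq_abs, abs_of_pos (by linarith)]
      have b3 : 2 * r₁ ≤ ‖z - ((2 * r₁ : ℝ) : ℂ)‖ + ‖z‖ := by
        calc 2 * r₁ = ‖z - (z - ((2 * r₁ : ℝ) : ℂ))‖ := by rw [sub_sub_cancel, hcn]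
          _ ≤ ‖z‖ + ‖z - ((2 * r₁ : ℝ) : ℂ)‖ := norm_sub_le _ _
          _ = _ := add_comm _ _
      have b4 : ‖z - ((2 * r₁ : ℝ) : ℂ)‖ ≤ 3 * r₁ := by
        have := norm_sub_le z ((2 * r₁ : ℝ) : ℂ)
        rw [hcn] at this
        linarith
      have b5 := b2 (by nlinarith)
      have b6 : ‖z - ((2 * r₁ : ℝ) : ℂ)‖ / (s * (2 * r₁)) ≤ 3 / (2 * s) := by
        rw [div_le_div_iff₀ (by positivity) (by positivity)]
        nlinarith [mul_le_mul_of_nonneg_right b4 (show (0 : ℝ) ≤ 2 * s by positivity)]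
      have b7 : (‖z - ((2 * r₁ : ℝ) : ℂ)‖ / (s * (2 * r₁))) ^ M ≤ (3 / (2 * s)) ^ M :=
        pow_le_pow_left₀ (by positivity) b6 _
      have b8 : ‖z‖ ^ j ≤ r₁ ^ j := pow_le_pow_left₀ (norm_nonneg _) hc1.le _
      have b9 : r₁ ^ j ≤ Real.exp (-(M * ℓi)) := by
        rw [hr₁, ← Real.exp_nat_mul]
        apply Real.exp_le_exp.2
        have h1 : 0 ≤ ℓi / η := by
          apply div_nonneg _ hη.le
          linarith
        have h2 : (M : ℝ) * η * (ℓi / η) ≤ j * (ℓi / η) := mul_le_mul_of_nonneg_right hj1 h1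
        have h3 : (M : ℝ) * η * (ℓi / η) = M * ℓi := by field_simp
        linarith
      have b10 : (3 / (2 * s)) ^ M = Real.exp (M * ℓi) := by
        rw [hℓi, Real.exp_nat_mul, Real.exp_log (by positivity)]
      have b11 : ‖ev Q₀ z‖ ≤ Real.exp (-(M * m₁)) * Real.exp (M * ℓi) := by
        rw [← b10]
        exact b5.trans (mul_le_mul_of_nonneg_left b7 (Real.exp_pos _).le)
      calc ‖z‖ ^ j * ‖ev Q₀ z‖
          ≤ Real.exp (-(M * ℓi)) * (Real.exp (-(M * m₁)) * Real.exp (M * ℓi)) :=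
            mul_le_mul (b8.trans b9) b11 (norm_nonneg _) (Real.exp_pos _).le
        _ = Real.exp (-(M * m₁)) := by
            rw [← Real.exp_add, ← Real.exp_add]
            congr 1
            ring
        _ = Real.exp (-(M * m₁)) * 1 := (mul_one _).symm
        _ ≤ _ := mul_le_mul_of_nonneg_left (one_le_pow₀ hz1) (Real.exp_pos _).le
    · rcases le_or_gt ‖z‖ R₁ with hc2 | hc2
      · -- annulus
        have a1 := hann z hz hc1 hc2
        have a2 : Real.exp (M * ((1 - 2 * η) * Real.posLog ‖z‖ - m₁))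
            ≤ Real.exp (-(M * m₁)) * (max 1 ‖z‖) ^ M := by
          rw [← exp_posLog (norm_nonneg z), ← Real.exp_nat_mul, ← Real.exp_add]
          apply Real.exp_le_exp.2
          have := Real.posLog_nonneg (x := ‖z‖)
          have h1 : 0 ≤ (M : ℝ) * (η * Real.posLog ‖z‖) := by positivity
          nlinarith
        calc ‖z‖ ^ j * ‖ev Q₀ z‖
            ≤ (max 1 ‖z‖) ^ j * (Real.exp (-(M * m₁)) * (max 1 ‖z‖) ^ M) :=
              mul_le_mul (pow_le_pow_left₀ (norm_nonneg _) hzn _) (a1.trans a2)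
                (norm_nonneg _) (by positivity)
          _ = _ := by rw [pow_add]; ring
      · -- outer part
        have hzpos : 0 < ‖z‖ := by linarith
        have b1 : ∀ w : ℂ, ‖w - ((R₁ / 2 : ℝ) : ℂ)‖ ≤ s * (R₁ / 2) →
            ‖(cp Q₀).eval w‖ ≤ Real.exp (-(M * m₁)) * (R₁ * (s / 3)) ^ M := by
          intro w hw
          obtain ⟨d1, d2, d3⟩ := hdisc (R₁ / 2) w (by linarith) hw
          have d4 := hann w d1 (by linarith) (by linarith)
          have d5 : Real.posLog ‖w‖ ≤ ℓo / (2 * η) := by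
            rw [← Real.exp_le_exp, exp_posLog (norm_nonneg _)]
            apply max_le
            · exact hR1.le
            · show ‖w‖ ≤ R₁
              linarith
          have d6 : R₁ * (s / 3) = Real.exp ((1 - 2 * η) * (ℓo / (2 * η))) := by
            have h1 : (1 - 2 * η) * (ℓo / (2 * η)) = ℓo / (2 * η) + -ℓo := by
              field_simp
              ring
            rw [h1, Real.exp_add, Real.exp_neg, hℓo, Real.exp_log (by positivity), ← hℓo, ← hR₁]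
            congr 1
            rw [inv_div]
          refine d4.trans ?_
          rw [d6, ← Real.exp_nat_mul, ← Real.exp_add]
          apply Real.exp_le_exp.2
          have h2 : (1 - 2 * η) * Real.posLog ‖w‖ ≤ (1 - 2 * η) * (ℓo / (2 * η)) :=
            mul_le_mul_of_nonneg_left d5 (by linarith)
          have h3 := mul_le_mul_of_nonneg_left h2 (show (0 : ℝ) ≤ M by linarith)
          linarith
        have b2 := hW (cp Q₀) M ((R₁ / 2 : ℝ) : ℂ) (s * (R₁ / 2))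
          (Real.exp (-(M * m₁)) * (R₁ * (s / 3)) ^ M) hdeg (by positivity) b1 z
        have hcn : ‖((R₁ / 2 : ℝ) : ℂ)‖ = R₁ / 2 := by
          rw [Complex.norm_real, Real.norm_eq_abs, abs_of_pos (by linarith)]
        have b3 : ‖z‖ ≤ ‖z - ((R₁ / 2 : ℝ) : ℂ)‖ + R₁ / 2 := by
          calc ‖z‖ = ‖(z - ((R₁ / 2 : ℝ) : ℂ)) + ((R₁ / 2 : ℝ) : ℂ)‖ := by rw [sub_add_cancel]
            _ ≤ _ := norm_add_le _ _
            _ = _ := by rw [hcn]
        have b4 : ‖z - ((R₁ / 2 : ℝ) : ℂ)‖ ≤ 3 / 2 * ‖z‖ := by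
          have := norm_sub_le z ((R₁ / 2 : ℝ) : ℂ)
          rw [hcn] at this
          linarith
        have b5 := b2 (by nlinarith)
        have b6 : ‖z - ((R₁ / 2 : ℝ) : ℂ)‖ / (s * (R₁ / 2)) ≤ 3 * ‖z‖ / (s * R₁) := by
          rw [div_le_div_iff₀ (by positivity) (by positivity)]
          have h1 := mul_le_mul_of_nonneg_right b4 (show (0 : ℝ) ≤ s * R₁ by positivity)
          nlinarith
        have b7 : (‖z - ((R₁ / 2 : ℝ) : ℂ)‖ / (s * (R₁ / 2))) ^ M ≤ (3 * ‖z‖ / (s * R₁)) ^ M :=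
          pow_le_pow_left₀ (by positivity) b6 _
        have b8 : ‖ev Q₀ z‖ ≤ Real.exp (-(M * m₁)) * ‖z‖ ^ M := by
          calc ‖ev Q₀ z‖ ≤ Real.exp (-(M * m₁)) * (R₁ * (s / 3)) ^ M
                * (3 * ‖z‖ / (s * R₁)) ^ M :=
                b5.trans (mul_le_mul_of_nonneg_left b7 (by positivity))
            _ = Real.exp (-(M * m₁)) * ((R₁ * (s / 3)) * (3 * ‖z‖ / (s * R₁))) ^ M := by
                rw [mul_pow (R₁ * (s / 3))]; ring
            _ = _ := by
                congr 2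
                field_simp
        calc ‖z‖ ^ j * ‖ev Q₀ z‖ ≤ ‖z‖ ^ j * (Real.exp (-(M * m₁)) * ‖z‖ ^ M) :=
              mul_le_mul_of_nonneg_left b8 (by positivity)
          _ = Real.exp (-(M * m₁)) * ‖z‖ ^ (M + j) := by rw [pow_add]; ring
          _ ≤ _ := mul_le_mul_of_nonneg_left (pow_le_pow_left₀ (norm_nonneg _) hzn _)
              (Real.exp_pos _).le
  refine ⟨M + j, X ^ j * Q₀, ?_, mul_ne_zero (pow_ne_zero _ X_ne_zero) hQ0, ?_⟩
  · have : 1 ≤ M := by exact_mod_cast hM1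
    omega
  · intro z hz
    have h1 : ‖ev (X ^ j * Q₀) z‖ = ‖z‖ ^ j * ‖ev Q₀ z‖ := by
      unfold ev cp
      rw [Polynomial.map_mul, Polynomial.map_pow, map_X, eval_mul, eval_pow, eval_X, norm_mul,
        norm_pow]
    have h2 : Real.exp (m₁ / (1 + 2 * η)) ^ (M + j) ≤ Real.exp (M * m₁) := by
      rw [← Real.exp_nat_mul]
      apply Real.exp_le_exp.2
      rw [mul_div_assoc', div_le_iff₀ (by linarith)]
      push_cast
      have h3 : ((M : ℝ) + j) ≤ M * (1 + 2 * η) := by linarith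
      have h4 := mul_le_mul_of_nonneg_right h3 hm0
      linarith
    rw [h1]
    calc Real.exp (m₁ / (1 + 2 * η)) ^ (M + j) * (‖z‖ ^ j * ‖ev Q₀ z‖)
        ≤ Real.exp (M * m₁) * (Real.exp (-(M * m₁)) * (max 1 ‖z‖) ^ (M + j)) :=
          mul_le_mul h2 (hmain z hz) (by positivity) (Real.exp_pos _).le
      _ = (max 1 ‖z‖) ^ (M + j) := by
          rw [← mul_assoc, ← Real.exp_add, add_neg_cancel, Real.exp_zero, one_mul]

end Pool.Agent.Work.MP_ce2d68_du.h89
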